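import Pool.Agent.Helper15.UL.GoalsE

/-!
# The Baire property
-/

noncomputable section

namespace UL.PkBP

open UL MeasureTheory

variable {I : Type} [LinearOrder I]

/-- The property which is proved by induction. -/
def C (S : Set (Pt I)) : Prop :=
  ∀ f, IsM f → ∃ g, IsM g ∧ ((∀ z, f (g z) ∈ S) ∨ ∀ z, f (g z) ∉ S)

theorem key (hF : HF I) {S : ℕ → Set (Pt I)} (hS : ∀ n, C (S n)) {f : Pt I → Pt I}
    (hf : IsM f) : (∃ g, IsM g ∧ ∃ n, ∀ z, f (g z) ∈ S n) ∨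
      ∃ g, IsM g ∧ ∀ z n, f (g z) ∉ S n := by
  by_cases h : ∃ g, IsM g ∧ ∃ n, ∀ z, f (g z) ∈ S n
  · exact Or.inl h
  · right
    have hfin : Fin0 (fun _ : I => 0) := by
      unfold Fin0
      simp
    obtain ⟨g, hg, -, hc⟩ := hF Set.univ (fun _ => 0) isLowerSet_univ hfin
      (fun _ _ => rfl) (fun n g => ∀ z, f (g z) ∉ S n)
      (by
        intro n g0 hg0
        obtain ⟨k, hk, h1 | h1⟩ := hS n (f ∘ g0) (hf.comp (MD_univ.1 hg0))
        · exact absurd ⟨g0 ∘ k, (MD_univ.1 hg0).comp hk, n, h1⟩ h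
        · exact ⟨k, MD_univ.2 hk, h1⟩)
      (fun n g0 g1 _ h1 _ z => h1 (g1 z))
    refine ⟨g, MD_univ.1 hg, fun z n => ?_⟩
    obtain ⟨A, -, -, h2⟩ := hc n
    obtain ⟨τ, -, -, h3, h4⟩ := h2 z
    obtain ⟨w, rfl⟩ := mem_B_iff.1 h3
    exact h4 w

theorem C_gen (ξ : I) (i : ℕ) : C {z : Pt I | z ξ i = true} := by
  intro f hf
  obtain ⟨A, -, h1⟩ := hf.cont
  obtain ⟨z0⟩ : Nonempty (Pt I) := inferInstance
  obtain ⟨F, n, -, h2⟩ := h1 {ξ} (i + 1) z0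
  have h3 : ∀ z, f (J (cn F n z0) z) ξ i = f z0 ξ i := fun z =>
    h2 _ (mem_cn_iff.1 (J_mem_B _ z)) ξ (Finset.mem_singleton_self ξ) i (Nat.lt_succ_self i)
  refine ⟨J (cn F n z0), J_isM (cn_fin F n z0), ?_⟩
  by_cases h : f z0 ξ i = true
  · left
    intro z
    rw [Set.mem_ofPred_eq, h3 z]
    exact h
  · right
    intro z
    rw [Set.mem_ofPred_eq, h3 z]
    exact h

theorem C_all (hG : G_GEN) (hF : HF I) (S : Set (Pt I)) (hS : MeasurableSet S) : C S := by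
  refine hG.1 I C ?_ ?_ ?_ ?_ S hS
  · intro f _
    exact ⟨id, IsM.id', Or.inr fun z h => h⟩
  · rintro S ⟨ξ, i, rfl⟩
    exact C_gen ξ i
  · intro S h f hf
    obtain ⟨g, hg, h1 | h1⟩ := h f hf
    · exact ⟨g, hg, Or.inr fun z hz => hz (h1 z)⟩
    · exact ⟨g, hg, Or.inl h1⟩
  · intro S h f hf
    rcases key hF h hf with ⟨g, hg, n, h1⟩ | ⟨g, hg, h1⟩
    · exact ⟨g, hg, Or.inl fun z => Set.mem_iUnion.2 ⟨n, h1 z⟩⟩
    · refine ⟨g, hg, Or.inr fun z hz => ?_⟩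
      obtain ⟨n, hn⟩ := Set.mem_iUnion.1 hz
      exact h1 z n hn

theorem thm : UL.G_GEN → UL.G_BP := by
  intro hG I _ _ hF
  refine ⟨fun S hS => C_all hG hF S hS, fun S hS f hf hz => ?_⟩
  rcases key hF (fun n => C_all hG hF (S n) (hS n)) hf with h | ⟨g, -, h1⟩
  · exact h
  · exfalso
    obtain ⟨z0⟩ : Nonempty (Pt I) := inferInstance
    obtain ⟨n, hn⟩ := hz (g z0)
    exact h1 z0 n hn

end UL.PkBP
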