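import Pool.Agent.Helper15.UL.GoalsA

/-!
# Shifting the children of every node
-/

noncomputable section

namespace UL.PkTREE

open UL

/-- One step of the recursion. -/
def step (k : Str → ℕ) (s : Str) (b : Bool) : Str :=
  match b with
  | true => s ++ true :: zs (k (s ++ [true]))
  | false => s ++ [false]

/-- The map of strings. -/
def Lam {I : Type} (k : Str → Pt I → ℕ) (z : Pt I) (σ : Str) : Str :=
  List.foldl (step fun s => k s z) (zs (k [] z)) σ

section

variable {I : Type} {k : Str → Pt I → ℕ}

theorem Lam_nil (z : Pt I) : Lam k z [] = zs (k [] z) := rfl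

theorem Lam_app (z : Pt I) (σ : Str) (b : Bool) :
    Lam k z (σ ++ [b]) = step (fun s => k s z) (Lam k z σ) b := by
  unfold Lam
  rw [List.foldl_append]
  rfl

theorem Lam_isL (z : Pt I) : IsL (Lam k z) := by
  intro σ b
  rw [Lam_app]
  cases b with
  | false => exact ⟨0, rfl⟩
  | true => exact ⟨_, rfl⟩

theorem Lam_LC {D : Set I} (hk : ∀ s, LC D (k s)) (σ : Str) : LC D (fun z => Lam k z σ) := by
  induction σ using List.reverseRecOn with
  | nil => exact (hk []).map fun n => zs n
  | append_singleton σ b ih =>
    have hg : ∀ s : Str, LC D (fun z : Pt I => step (fun s => k s z) s b) := by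
      intro s
      cases b with
      | false => exact LC.const _
      | true => exact (hk (s ++ [true])).map fun n => s ++ true :: zs n
    have h : LC D (fun z => (fun (s : Str) (z : Pt I) => step (fun s => k s z) s b)
        (Lam k z σ) z) :=
      LC.bind (g := fun (s : Str) (z : Pt I) => step (fun s => k s z) s b) ih hg
    have e : (fun z => Lam k z (σ ++ [b])) = fun z =>
        (fun (s : Str) (z : Pt I) => step (fun s => k s z) s b) (Lam k z σ) z := by
      funext z
      exact Lam_app z σ b
    rw [e]
    exact h

end

theorem thm : UL.G_TREE := by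
  classical
  intro I _ ε k hk
  obtain ⟨Θ, hΘ⟩ := exists_rep (L := fun ξ z σ => if ξ = ε then Lam k z σ else σ)
    (by
      intro ξ z
      by_cases h : ξ = ε
      · simp only [if_pos h]
        exact Lam_isL z
      · simp only [if_neg h]
        exact IsL.id)
    (by
      intro ξ σ
      by_cases h : ξ = ε
      · subst h
        simp only [if_true]
        exact Lam_LC hk σ
      · simp only [if_neg h]
        exact LC.const _)
    ⟨{ε}, Set.countable_singleton ε, by
      intro ξ h z σ
      exact if_neg h⟩
  refine ⟨Θ, _, hΘ, ⟨⟨_, hΘ⟩, ?_⟩, ?_, ?_, ?_⟩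
  · intro z ξ hξ
    have h : ξ ≠ ε := ne_of_lt hξ
    apply Y.ext
    intro i
    have h1 := hΘ.pre z ξ (i + 1) i (by simp only [if_neg h, res_length]; omega)
    simp only [if_neg h] at h1
    rw [res_get] at h1
    exact h1.symm
  · intro z
    simp only [if_true]
    rfl
  · intro z σ
    simp only [if_true]
    exact Lam_app z σ false
  · intro z σ
    simp only [if_true]
    exact Lam_app z σ true

end UL.PkTREE
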